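import Pool.Agent.W922.GY2.Stm

/-!
Project GY2, part BASIS: the sublevel sets of a Gleason-comparable norm form a basis at `1`.
-/

namespace Pool.Agent.W645.GY2

open Filter Topology MeasureTheory Set
open Pool.Agent.W922.GY2

theorem basis (hCPT : S_CPT) (hESC : S_ESC) : S_BASIS := by
  intro G _ _ _ _ U M ν hU hM hN
  obtain ⟨h01, _, h3, _, h0, hev⟩ := hESC G U hU
  have hbas : (𝓝 (1 : G)).HasBasis (fun ε : ℝ => 0 < ε) (fun ε => {g | ν g < ε}) := by
    refine ⟨fun t => ⟨?_, ?_⟩⟩
    · intro ht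
      obtain ⟨N, hN0, hNt⟩ := hCPT G U hU t ht
      have hNr : (0 : ℝ) < (N : ℝ) := by exact_mod_cast hN0
      refine ⟨1 / (M * N), by positivity, ?_⟩
      intro g hg
      simp only [Set.mem_setOf_eq] at hg
      apply hNt
      apply h3
      have h1 := hN.ge g
      have hMN : 0 < M * N := by positivity
      rw [lt_div_iff₀ hMN] at hg
      have h2 : (N : ℝ) * esc U g ≤ N * (M * ν g) := mul_le_mul_of_nonneg_left h1 hNr.le
      calc (N : ℝ) * esc U g ≤ N * (M * ν g) := h2
        _ = ν g * (M * N) := by ring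
        _ < 1 := hg
    · rintro ⟨ε, hε, hsub⟩
      filter_upwards [hev ε hε] with g hg
      exact hsub (lt_of_le_of_lt (hN.le g) hg)
  refine ⟨hbas, ?_, ?_⟩
  · intro g hg
    by_contra hcon
    have h1 : ν g ≤ 0 := not_lt.mp hcon
    have h2 : esc U g ≤ 0 := le_trans (hN.ge g) (mul_nonpos_of_nonneg_of_nonpos hM.le h1)
    exact hg ((h0 g).mp (le_antisymm h2 (h01 g).1))
  · rw [continuous_iff_continuousAt]
    intro x
    rw [ContinuousAt, Metric.tendsto_nhds]
    intro ε hε
    have hc : Tendsto (fun y : G => x⁻¹ * y) (𝓝 x) (𝓝 (1 : G)) := by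
      have h : Continuous (fun y : G => x⁻¹ * y) := continuous_const.mul continuous_id
      have h2 := h.tendsto x
      simpa using h2
    have hm : {g : G | ν g < ε} ∈ 𝓝 (1 : G) := hbas.mem_of_mem hε
    filter_upwards [hc hm] with y hy
    have hy' : ν (x⁻¹ * y) < ε := hy
    have e1 : ν y ≤ ν x + ν (x⁻¹ * y) := by
      have := hN.mul x (x⁻¹ * y)
      rwa [mul_inv_cancel_left] at this
    have e2 : ν x ≤ ν y + ν (x⁻¹ * y) := by
      have h := hN.mul y (y⁻¹ * x)
      rw [mul_inv_cancel_left] at h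
      have h3 : ν (y⁻¹ * x) = ν (x⁻¹ * y) := by
        rw [← hN.inv (x⁻¹ * y)]
        congr 1
        group
      rwa [h3] at h
    rw [Real.dist_eq, abs_lt]
    constructor <;> linarith

end Pool.Agent.W645.GY2
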